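import Mathlib
import Pool.Agent.H.MP_9c4169_gt.A

set_option autoImplicit false

namespace Pool.Agent.Results.MP_9c4169_gt.Yes

open Set Pool.Agent.H.MP_9c4169_gt

/-- `P` is preserved under unions of two sets, and under countable unions. -/
def Add (P : Set ℝ → Prop) : Prop :=
  (∀ X Y, P X → P Y → P (X ∪ Y)) ∧ ∀ X : ℕ → Set ℝ, (∀ n, P (X n)) → P (⋃ n, X n)

theorem result :
    Add (fun X => S1 (Ga (Op X)) (Ta (Op X))) ∧ Add (fun X => S1 (Ta (Op X)) (Ta (Op X))) ∧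
    Add (fun X => S1 (Ct (Ga (Bo X))) (Ct (Ta (Bo X)))) ∧
    Add (fun X => S1 (Ct (Ta (Bo X))) (Ct (Ta (Bo X)))) := by
  have k : ∀ {Z : Type} {𝒪 : Set (Set Z)}, Ct (Ga 𝒪) ⊆ Ct (Ta 𝒪) :=
    fun {_ _ _} h => ⟨ga_ta h.1, h.2⟩
  refine ⟨addl fun ι _ _ W _ X h1 h2 h 𝒰 h𝒰 => ?_, addl fun ι _ _ W _ X h1 h2 h 𝒰 h𝒰 => ?_,
    addl fun ι _ _ W _ X h1 h2 h 𝒰 h𝒰 => ?_, addl fun ι _ _ W _ X h1 h2 h 𝒰 h𝒰 => ?_⟩
  · exact ((sel_ig (un h1 h2 Gg.sigma fun i => (ggo subset_rfl (h i)).pull _ (incO (h1 i)))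
      (fun n => (h𝒰 n).1.1) fun n => ga_en (h𝒰 n)).ga fun n => (h𝒰 n).1).imp
      fun _ h => ⟨h.1, (k h.2).1⟩
  · exact ((sel_it (un h1 h2 Gg.sigma fun i => (ggo ga_ta (h i)).pull _ (incO (h1 i)))
      (un h1 h2 Ht.sigma fun i => (hto (h i)).pull _ (incO (h1 i)))
      (fun n => (h𝒰 n).1.1) fun n => ta_op (h𝒰 n)).ga fun n => (h𝒰 n).1).imp
      fun _ h => ⟨h.1, (k h.2).1⟩
  · exact ((sel_ig (un h1 h2 Gg.sigma fun i => (ggb subset_rfl (h i)).pull _ (incB (h1 i)))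
      (fun n => (h𝒰 n).1.1.1) fun n => ga_en (h𝒰 n).1).ga fun n => (h𝒰 n).1.1).imp
      fun _ h => ⟨h.1, k h.2⟩
  · exact ((sel_it (un h1 h2 Gg.sigma fun i => (ggb k (h i)).pull _ (incB (h1 i)))
      (un h1 h2 Ht.sigma fun i => (htb (h i)).pull _ (incB (h1 i)))
      (fun n => (h𝒰 n).1.1.1) fun n => ta_ct (h𝒰 n)).ga fun n => (h𝒰 n).1.1).imp
      fun _ h => ⟨h.1, k h.2⟩

end Pool.Agent.Results.MP_9c4169_gt.Yes
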